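import Mathlib
import Pool.Agent.Q103.SDV.JCount
import Pool.Agent.Withdrawn.MP_a793bb_nt_SmallDigitPoints

/-!
# The abc inequality at the points composed of numbers with small digits: a form for applications
-/

set_option autoImplicit false

namespace Pool.Agent.Q103.SDJ

open Polynomial IsDedekindDomain NumberField Height
open Pool.Agent.W223.CV
open Pool.Agent.Q103.SDV
open Pool.Agent.Results.MP_a793bb_nt.SmallDigitPoints (Small point unequal logN)

variable {K : Type} [Field K] [NumberField K]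

/-- the coordinates of `P` are composed of numbers with small digits in the base `t`, and the product
of the numbers with different exponents is squarefree -/
def Compo (D : ℕ) (δ T : ℝ) (t : 𝓞 K) (P : Fin 3 → 𝓞 K) : Prop :=
  ∃ (n : ℕ) (F : Fin n → (𝓞 K)[X]) (b : Fin 3 → 𝓞 K) (e : Fin 3 → Fin n → ℕ),
    Small D δ T t F b e ∧ (unequal e).Nonempty ∧
    Squarefree (Ideal.span {∏ i ∈ unequal e, (F i).eval t}) ∧ P = point t F b e

lemma rad_eq (P : Fin 3 → 𝓞 K) :
    Pool.Agent.Results.MP_a793bb_nt.SmallDigitPoints.rad P =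
      cc ∅ (Bad P) / Module.finrank ℚ K := by
  unfold Pool.Agent.Results.MP_a793bb_nt.SmallDigitPoints.rad cc
  congr 1
  apply finsum_congr
  intro v
  unfold ct
  by_cases h : Bad P v
  · rw [if_pos ⟨by simp, h⟩]
    exact finsum_eq_if.trans (if_pos h)
  · rw [if_neg (fun h1 => h h1.2)]
    exact finsum_eq_if.trans (if_neg h)

/-- `log |N(t)|` -/
noncomputable def lN (t : 𝓞 K) : ℝ := Real.log |((Algebra.norm ℚ (t : K) : ℚ) : ℝ)|

theorem abc (D : ℕ) (ε : ℝ) (hε : 0 < ε) (hε1 : ε < 1) : ∃ δ : ℝ, 0 < δ ∧ ∃ T₀ : ℝ, 1 ≤ T₀ ∧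
    ∀ T : ℝ, T₀ ≤ T → ∀ (K : Type) [Field K] [NumberField K] (t : 𝓞 K) (P : Fin 3 → 𝓞 K),
      Compo D δ T t P → P 0 + P 1 + P 2 = 0 → (∃ k, P k ≠ 0) →
      (∀ k, P k ≠ 0) ∧ Module.finrank ℚ K * Real.log T ≤ lN t ∧
      logHeight (fun k => (P k : K)) + (1 - ε) * lN t ≤ cc ∅ (Bad P) := by
  obtain ⟨δ, hδ, T₁, hT₁, hmain⟩ :=
    Pool.Agent.Results.MP_a793bb_nt.SmallDigitPoints.result D ε hε
  refine ⟨δ, hδ, max T₁ (Real.exp 1), hT₁.trans (le_max_left _ _), ?_⟩
  intro T hT K _ _ t P hP hsum hnz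
  obtain ⟨n, F, b, e, hsm, hU, hsq, hPe⟩ := hP
  have hTT : T₁ ≤ T := (le_max_left _ _).trans hT
  have hT0 : 1 ≤ T := hT₁.trans hTT
  have hlogT : 1 ≤ Real.log T := by
    have h1 := Real.log_le_log (Real.exp_pos 1) ((le_max_right T₁ _).trans hT)
    rwa [Real.log_exp] at h1
  have hd : (0 : ℝ) < Module.finrank ℚ K := by exact_mod_cast Module.finrank_pos
  have hsum' : point t F b e 0 + point t F b e 1 + point t F b e 2 = 0 := by
    rw [← hPe]; exact hsum
  obtain ⟨hm1, hm2⟩ := hmain T hTT K n t F b e hsm hsum' hU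
  have hm2 := hm2 hsq
  rw [← hPe, rad_eq] at hm2
  have ht0 : t ≠ 0 := by
    rintro rfl
    obtain ⟨σ⟩ : Nonempty (K →+* ℂ) := inferInstance
    have h1 := hsm.base σ
    simp at h1
    linarith
  have hNt : Module.finrank ℚ K * Real.log T ≤ lN t := by
    unfold lN
    rw [← Pool.Agent.Q103.SD.NF.log_norm t ht0, ← InfinitePlace.sum_mult_eq]
    push_cast
    rw [Finset.sum_mul]
    apply Finset.sum_le_sum
    intro w _
    apply mul_le_mul_of_nonneg_left _ (Nat.cast_nonneg _)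
    apply Real.log_le_log (by linarith)
    rw [← InfinitePlace.norm_embedding_eq]
    exact hsm.base w.embedding
  have hNtp : 0 < lN t := by nlinarith
  have hlogN : logN t = lN t / Module.finrank ℚ K := rfl
  have hNt0 : 0 < logN t := by rw [hlogN]; positivity
  have hh0 : 0 ≤ Pool.Agent.Results.MP_a793bb_nt.SmallDigitPoints.h (point t F b e) := by
    unfold Pool.Agent.Results.MP_a793bb_nt.SmallDigitPoints.h
    exact div_nonneg (Height.logHeight_nonneg _) hd.le
  have hval : ∀ i ∈ unequal e, (F i).eval t ≠ 0 := by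
    intro i hi h0
    have h1 : ∏ i ∈ unequal e, (F i).eval t = 0 := Finset.prod_eq_zero hi h0
    rw [h1] at hm1
    have h2 : logN (0 : 𝓞 K) = 0 := by
      unfold Pool.Agent.Results.MP_a793bb_nt.SmallDigitPoints.logN
      simp
    rw [h2] at hm1
    nlinarith
  have hP0 : ∀ k, P k ≠ 0 := by
    intro k hk
    have h1 : point t F b e k = 0 := by rw [← hPe]; exact hk
    unfold Pool.Agent.Results.MP_a793bb_nt.SmallDigitPoints.point at h1
    rcases mul_eq_zero.mp h1 with h2 | h2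
    · exact hsm.ne_zero k h2
    · obtain ⟨i, -, h3⟩ := Finset.prod_eq_zero_iff.mp h2
      have h4 : (F i).eval t = 0 := eq_zero_of_pow_eq_zero h3
      have h5 : e k i ≠ 0 := by
        intro h
        rw [h, pow_zero] at h3
        exact one_ne_zero h3
      have h6 : i ∉ unequal e := fun h => hval i h h4
      unfold Pool.Agent.Results.MP_a793bb_nt.SmallDigitPoints.unequal at h6
      rw [Finset.mem_filter] at h6
      have h6' : e 0 i = e 1 i ∧ e 1 i = e 2 i := by
        by_contra h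
        exact h6 ⟨Finset.mem_univ i, h⟩
      obtain ⟨h7, h8⟩ := h6'
      have h7' : ∀ k', e k' i = e 0 i := by
        intro k'
        fin_cases k'
        · rfl
        · exact h7.symm
        · exact (h7.trans h8).symm
      have h9 : ∀ k', e k' i ≠ 0 := by
        intro k'
        rw [h7' k', ← h7' k]
        exact h5
      obtain ⟨k', hk'⟩ := hnz
      apply hk'
      rw [hPe]
      unfold Pool.Agent.Results.MP_a793bb_nt.SmallDigitPoints.point
      rw [Finset.prod_eq_zero (Finset.mem_univ i), mul_zero]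
      rw [h4, zero_pow (h9 k')]
  refine ⟨hP0, hNt, ?_⟩
  have hhP : Pool.Agent.Results.MP_a793bb_nt.SmallDigitPoints.h P =
      Height.logHeight (fun k => (P k : K)) / Module.finrank ℚ K := rfl
  rw [hhP, hlogN, ← mul_div_assoc, ← add_div] at hm2
  exact (div_le_div_iff_of_pos_right hd).mp hm2

/-- **Invariants.** `j` is composed of numbers with small digits. -/
theorem jcount (D : ℕ) (ε C : ℝ) (hε : 0 < ε) : ∃ δ : ℝ, 0 < δ ∧ ∃ T₀ : ℝ, 1 ≤ T₀ ∧
    ∀ T : ℝ, T₀ ≤ T → ∀ (K : Type) [Field K] [NumberField K] (t : 𝓞 K) (P : Fin 3 → 𝓞 K) (j : K),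
      Compo D δ T t P → IsJ P j →
      j ≠ 0 ∧ j ≠ 1728 ∧ Module.finrank ℚ K * Real.log T ≤ lN t ∧
      C ≤ logHeight₁ j / Module.finrank ℚ K ∧
      1 / 6 * logHeight₁ j + (1 - ε) * lN t ≤
        scount (fun v => 1 < FinitePlace.mk v j) + scount (AddP j) := by
  obtain ⟨η, hη⟩ : ∃ η, η = min ε 1 / 2 := ⟨_, rfl⟩
  have hη0 : 0 < η := by rw [hη]; positivity
  have hηε : η ≤ ε / 2 := by
    rw [hη]
    have := min_le_left ε 1
    linarith
  have hη1 : η ≤ 1 / 2 := by
    rw [hη]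
    have := min_le_right ε 1
    linarith
  obtain ⟨δ, hδ, T₁, hT₁, hmain⟩ := abc D η hη0 (by linarith)
  have l1 : 0 ≤ Real.log 1728 := Real.log_nonneg (by norm_num)
  have l2 : 0 ≤ Real.log 2 := Real.log_nonneg (by norm_num)
  have l3 : 0 ≤ Real.log 3 := Real.log_nonneg (by norm_num)
  obtain ⟨B, hB⟩ : ∃ B : ℝ, B = 4 * (max C 0 + 2 * Real.log 1728 + Real.log 2) +
    (2 / ε) * (2 * Real.log 1728 + 2 * Real.log 2 + Real.log 3) := ⟨_, rfl⟩
  refine ⟨δ, hδ, max T₁ (Real.exp B), hT₁.trans (le_max_left _ _), ?_⟩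
  intro T hT K _ _ t P j hP hj
  have hTT : T₁ ≤ T := (le_max_left _ _).trans hT
  have hT0 : 1 ≤ T := hT₁.trans hTT
  have hlogT : B ≤ Real.log T := by
    have h1 := Real.log_le_log (Real.exp_pos B) ((le_max_right T₁ _).trans hT)
    rwa [Real.log_exp] at h1
  obtain ⟨s, hs0, e0, e1, e2⟩ := hj
  have hsumK : (P 0 : K) + P 1 + P 2 = 0 := by
    rw [e0, e1, e2]
    ring
  have hsum : P 0 + P 1 + P 2 = 0 := by
    apply RingOfIntegers.coe_injective
    push_cast
    exact hsumK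
  have hd : (0 : ℝ) < Module.finrank ℚ K := by exact_mod_cast Module.finrank_pos
  have h1728 : (1728 : K) ≠ 0 := by norm_num
  have hP2 : P 2 ≠ 0 := by
    intro h
    have h1 : (P 2 : K) = 0 := by rw [h]; rfl
    rw [e2] at h1
    exact mul_ne_zero hs0 h1728 (neg_eq_zero.mp h1)
  obtain ⟨hP0, hNt, hab⟩ := hmain T hTT K t P hP hsum ⟨2, hP2⟩
  have hPK : ∀ k, (P k : K) ≠ 0 := fun k => RingOfIntegers.coe_ne_zero_iff.mpr (hP0 k)
  have hj0 : j ≠ 0 := by
    rintro rfl
    exact hPK 0 (by rw [e0, mul_zero])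
  have hj1 : j ≠ 1728 := by
    rintro rfl
    exact hPK 1 (by rw [e1, sub_self, mul_zero])
  -- the height
  have hy : (j / 1728) * (P 2 : K) = -(P 0 : K) := by
    rw [e0, e2]
    field_simp
  have k1 := rad_le_J P hP0 hj0 hj1 ⟨s, hs0, e0, e1, e2⟩
  have k2 := rad_le_height P hP0 hsum _ hy
  have k3 := log_mob_le P hP0 _ hy
  have k9 : logHeight₁ (1728 : K) = Module.finrank ℚ K * Real.log 1728 := by
    have h := log_rat (K := K) 1728
    push_cast at h
    rw [h]
    congr 1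
    have h3 : mulHeight₁ (1728 : ℚ) = 1728 := by
      have := Rat.mulHeight₁_eq_max (1728 : ℚ)
      rw [this]
      norm_num
    show Real.log (mulHeight₁ (1728 : ℚ)) = _
    rw [h3]
  have k4 : logHeight₁ (j / 1728) ≤ logHeight₁ j + Module.finrank ℚ K * Real.log 1728 := by
    have h := logHeight₁_mul_le j (1728 : K)⁻¹
    rw [logHeight₁_inv, k9, ← div_eq_mul_inv] at h
    exact h
  have k5 : logHeight₁ j ≤ logHeight₁ (j / 1728) + Module.finrank ℚ K * Real.log 1728 := by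
    have h := logHeight₁_mul_le (j / 1728) (1728 : K)
    rw [div_mul_cancel₀ _ h1728, k9] at h
    exact h
  obtain ⟨d, hdd⟩ : ∃ d : ℝ, d = Module.finrank ℚ K := ⟨_, rfl⟩
  rw [← hdd] at hd k1 k2 k4 k5 hNt ⊢
  obtain ⟨R, hR⟩ : ∃ R, R = Pool.Agent.W223.CV.cc ∅ (Pool.Agent.Q103.SDV.Bad P) := ⟨_, rfl⟩
  obtain ⟨H, hH⟩ : ∃ H, H = Height.logHeight (fun k => (P k : K)) := ⟨_, rfl⟩
  obtain ⟨Y, hY⟩ : ∃ Y, Y = Height.logHeight₁ (j / 1728) := ⟨_, rfl⟩
  obtain ⟨Z, hZ⟩ : ∃ Z, Z = Height.logHeight₁ j := ⟨_, rfl⟩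
  obtain ⟨A, hA⟩ : ∃ A, A = scount (fun v => 1 < FinitePlace.mk v j) + scount (AddP j) :=
    ⟨_, rfl⟩
  rw [← hR, ← hZ, ← hA] at k1
  rw [← hR, ← hY] at k2
  rw [← hY, ← hH] at k3
  rw [← hY, ← hZ] at k4 k5
  rw [← hR, ← hH] at hab
  rw [← hZ, ← hA]
  have hM : 0 ≤ 2 / ε * (2 * Real.log 1728 + 2 * Real.log 2 + Real.log 3) := by positivity
  have hM2 : 0 ≤ 4 * (max C 0 + 2 * Real.log 1728 + Real.log 2) := by
    have := le_max_right C 0
    positivity
  have c1 : 4 * (max C 0 + 2 * Real.log 1728 + Real.log 2) ≤ Real.log T := by linarith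
  have c2 : 2 * Real.log 1728 + 2 * Real.log 2 + Real.log 3 ≤ ε / 2 * Real.log T := by
    have h2 : 2 / ε * (2 * Real.log 1728 + 2 * Real.log 2 + Real.log 3) ≤ Real.log T := by linarith
    calc 2 * Real.log 1728 + 2 * Real.log 2 + Real.log 3 =
          ε / 2 * (2 / ε * (2 * Real.log 1728 + 2 * Real.log 2 + Real.log 3)) := by
          field_simp
      _ ≤ ε / 2 * Real.log T := mul_le_mul_of_nonneg_left h2 (by positivity)
  have hT2 : 0 ≤ Real.log T := Real.log_nonneg hT0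
  have hN0 : 0 ≤ lN t := le_trans (by positivity) hNt
  refine ⟨hj0, hj1, hNt, ?_, ?_⟩
  · rw [le_div_iff₀ hd]
    have h1 : (1 - η) * lN t ≤ 2 * Y + d * Real.log 2 := by linarith
    have h2 : 1 / 2 * (d * Real.log T) ≤ (1 - η) * lN t := by
      apply mul_le_mul (by linarith) hNt (by positivity) (by linarith)
    have h3 : d * (4 * (max C 0 + 2 * Real.log 1728 + Real.log 2)) ≤ d * Real.log T :=
      mul_le_mul_of_nonneg_left c1 hd.le
    have h4 : d * C ≤ d * max C 0 := mul_le_mul_of_nonneg_left (le_max_left _ _) hd.le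
    have h5 := mul_nonneg hd.le l1
    have h6 := mul_nonneg hd.le l2
    have h7 : 0 ≤ d * max C 0 := mul_nonneg hd.le (le_max_right _ _)
    nlinarith
  · have h1 : d * (2 * Real.log 1728 + 2 * Real.log 2 + Real.log 3) ≤ ε / 2 * lN t := by
      calc d * (2 * Real.log 1728 + 2 * Real.log 2 + Real.log 3) ≤ d * (ε / 2 * Real.log T) :=
            mul_le_mul_of_nonneg_left c2 hd.le
        _ = ε / 2 * (d * Real.log T) := by ring
        _ ≤ ε / 2 * lN t := mul_le_mul_of_nonneg_left hNt (by positivity)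
    have h2 : η * lN t ≤ ε / 2 * lN t := mul_le_mul_of_nonneg_right hηε hN0
    nlinarith

end Pool.Agent.Q103.SDJ
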