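import Mathlib
import Pool.Agent.Y733.FF.Main
import Pool.Agent.Q103.SDV.JCount

/-!
# The sharp local inequality between the minimal discriminant, the conductor and the radical
-/

set_option autoImplicit false
set_option linter.unusedSectionVars false

namespace Pool.Agent.Q103.SDJ

open NumberField IsDedekindDomain Pool.Agent.H691R3 Pool.Agent.W223.AK Pool.Agent.Y733.LS
open Pool.Agent.Y733.FF
open Pool.Agent.TH876.FH (GoodAt IsPeriod arch)

variable {K : Type} [Field K] [NumberField K]

/-- the minimal discriminant is attained -/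
theorem attained (v : Pr K) (E : WeierstrassCurve K) (hE : E.Δ ≠ 0) :
    ∃ C : WeierstrassCurve.VariableChange K, IntAt v (C • E) ∧
      v.valuation K (C • E).Δ = WithZero.exp (-((discExp v E : ℕ) : ℤ)) := by
  have hne : {m : ℕ | ∃ C : WeierstrassCurve.VariableChange K, IntAt v (C • E) ∧
      v.valuation K (C • E).Δ = WithZero.exp (-(m : ℤ))}.Nonempty := by
    have hN : 0 < Nv v := lt_trans one_pos (Nv_one_lt v)
    have hc := c46 E hE
    obtain ⟨k, k1, k2, -⟩ := exists_k v (x := E.c₄ / 48) (y := E.c₆ / 864) (by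
      rcases hc with h | h
      · exact Or.inl (div_ne_zero h (by norm_num))
      · exact Or.inr (div_ne_zero h (by norm_num)))
    obtain ⟨u, hu⟩ := exists_fv v k
    have hu0 : u ≠ 0 := by
      rintro rfl
      rw [map_zero] at hu
      exact absurd hu.symm (zpow_ne_zero _ hN.ne')
    obtain ⟨C, c1, c2, c3, c4, c6, c7⟩ := short E (Units.mk0 u hu0)
    have e : (((Units.mk0 u hu0)⁻¹ : Kˣ) : K) = u⁻¹ := rfl
    rw [e] at c4 c6 c7
    have h0 := disc_ne E hE C
    have hle : ∀ x : K, ∀ m : ℕ, fv v x ≤ (Nv v) ^ ((m : ℤ) * k) →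
        fv v (-x * u⁻¹ ^ m) ≤ 1 := by
      intro x m hx
      rw [map_mul, map_neg_eq_map, map_pow, map_inv₀, hu, inv_pow, ← div_eq_mul_inv,
        div_le_one (pow_pos (zpow_pos hN _) _)]
      refine hx.trans (le_of_eq ?_)
      rw [mul_comm, zpow_mul, zpow_natCast]
    have hI : IntAt v (C • E) := by
      refine ⟨?_, ?_, ?_, ?_, ?_⟩
      · rw [c1, map_zero]; exact zero_le_one
      · rw [c2, map_zero]; exact zero_le_one
      · rw [c3, map_zero]; exact zero_le_one
      · rw [c4, ← fv_le_one_iff v]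
        exact hle _ 4 (by exact_mod_cast k1)
      · rw [c6, ← fv_le_one_iff v]
        exact hle _ 6 (by exact_mod_cast k2)
    obtain ⟨m, hm⟩ := val_exp v h0 (int_disc v _ hI).1
    exact ⟨m, C, hI, hm⟩
  exact Nat.sInf_mem hne

theorem j_1728 (E : WeierstrassCurve K) (hE : E.Δ ≠ 0) :
    E.c₄ ^ 3 / E.Δ - 1728 = E.c₆ ^ 2 / E.Δ := by
  rw [div_sub' hE]
  congr 1
  linear_combination (-1 : K) * E.c_relation

/-- the congruences for the exponent of the minimal discriminant -/
theorem congr (v : Pr K) (E : WeierstrassCurve K) (hE : E.Δ ≠ 0) :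
    (∀ a : ℤ, fv v (E.c₄ ^ 3 / E.Δ) = (Nv v) ^ (-a) → ∃ k : ℤ, a + discExp v E = 3 * k) ∧
    (∀ a : ℤ, fv v (E.c₄ ^ 3 / E.Δ - 1728) = (Nv v) ^ (-a) →
      ∃ k : ℤ, a + discExp v E = 2 * k) := by
  have hN : 1 < Nv v := Nv_one_lt v
  have hN0 : 0 < Nv v := lt_trans one_pos hN
  obtain ⟨C, hC, hd⟩ := attained v E hE
  have h0 := disc_ne E hE C
  have hΔ : fv v (C • E).Δ = (Nv v) ^ (-(discExp v E : ℤ)) := by
    have h1 := fv_exp v hd
    have h2 : 0 < fv v (C • E).Δ := (fv v).pos h0
    rw [← Real.exp_log h2, h1, ← Real.rpow_intCast, Real.rpow_def_of_pos hN0]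
    congr 1
    push_cast
    ring
  have key : ∀ (x : K) (n : ℕ) (a : ℤ), fv v (x ^ n / (C • E).Δ) = (Nv v) ^ (-a) → 0 < n →
      ∃ k : ℤ, a + discExp v E = n * k := by
    intro x n a h hn
    have hx : x ≠ 0 := by
      rintro rfl
      rw [zero_pow hn.ne', zero_div, map_zero] at h
      exact absurd h.symm (zpow_ne_zero _ hN0.ne')
    obtain ⟨c, hc⟩ := fv_zpow v hx
    change fv v x = (Nv v) ^ c at hc
    rw [map_div₀, map_pow, hc, hΔ, ← zpow_natCast, ← zpow_mul, ← zpow_sub₀ hN0.ne'] at h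
    have h1 := zpow_right_injective₀ hN0 hN.ne' h
    refine ⟨-c, ?_⟩
    have h2 : c * n - -(discExp v E : ℤ) = -a := h1
    linear_combination h2
  constructor
  · intro a h
    rw [j_change E hE C] at h
    exact key _ 3 a h (by norm_num)
  · intro a h
    rw [j_change E hE C, j_1728 _ h0] at h
    exact key _ 2 a h (by norm_num)

theorem log_max_inv (v : Pr K) {x : K} (a : ℤ) (ha : 0 ≤ a) (h : fv v x = (Nv v) ^ (-a)) :
    Real.log (max (fv v x⁻¹) 1) = a * Real.log (Nv v) := by
  have hN : 1 < Nv v := Nv_one_lt v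
  rw [map_inv₀, h, ← zpow_neg, neg_neg, max_eq_left (one_le_zpow₀ hN.le ha), Real.log_zpow]

open Classical in
/-- **The sharp local inequality.** -/
theorem loc_sharp (v : Pr K) (E : WeierstrassCurve K) (hE : E.Δ ≠ 0) (h4 : E.c₄ ≠ 0)
    (h6 : E.c₆ ≠ 0) (B : Prop)
    (hB : B → fv v (6 : K) = 1 → 1 < fv v (E.c₄ ^ 3 / E.Δ) ∨ fv v (E.c₄ ^ 3 / E.Δ) < 1 ∨
      fv v (E.c₄ ^ 3 / E.Δ - 1728) < 1) :
    (discExp v E : ℝ) * Real.log (Nv v) + 6 * (if B then Real.log (Nv v) else 0) ≤
      Real.log (max (fv v (E.c₄ ^ 3 / E.Δ)) 1) +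
      2 * Real.log (max (fv v (E.c₄ ^ 3 / E.Δ)⁻¹) 1) +
      3 * Real.log (max (fv v (E.c₄ ^ 3 / E.Δ - 1728)⁻¹) 1) + 6 * mw v E + 12 * aw v E +
      28 * (-Real.log (fv v (6 : K))) := by
  have hN : 1 < Nv v := Nv_one_lt v
  have hl := log_Nv_pos v
  obtain ⟨s0, s1⟩ := log_six v
  have hm := mw_nonneg v E
  have ha := aw_nonneg v E
  obtain ⟨g3, g2⟩ := congr v E hE
  have hj1 := j_1728 E hE
  obtain ⟨b1, b2⟩ := disc_bound v E hE
  have hgood := good_int v E hE
  have hsemi := semi_disc v E hE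
  have hdg := disc_good v E
  have hj0 : E.c₄ ^ 3 / E.Δ ≠ 0 := div_ne_zero (pow_ne_zero _ h4) hE
  have hj2 : E.c₄ ^ 3 / E.Δ - 1728 ≠ 0 := by
    rw [hj1]
    exact div_ne_zero (pow_ne_zero _ h6) hE
  obtain ⟨j, hj⟩ : ∃ j, j = E.c₄ ^ 3 / E.Δ := ⟨_, rfl⟩
  -- a semistable curve without a pole has good reduction
  have hsg : SemiAt v E → ¬ 1 < fv v j → GoodAt v E := by
    rintro ⟨C, c1, c2, c3, c4, c5, c6⟩ hnp
    refine ⟨C, c1, c2, c3, c4, c5, ?_⟩
    rcases c6 with c6 | c6
    · exact c6
    · have h0 := disc_ne E hE C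
      have h1 := int_disc v _ ⟨c1, c2, c3, c4, c5⟩
      have h2 : fv v (C • E).Δ ≤ 1 := (fv_le_one_iff v).2 h1.1
      have h3 : 0 < fv v (C • E).Δ := (fv v).pos h0
      rw [hj, j_change E hE C, map_div₀, map_pow, (fv_one_iff v).2 c6, one_pow, one_div,
        not_lt] at hnp
      have h5 : 1 ≤ fv v (C • E).Δ := (inv_le_one₀ h3).1 hnp
      exact (fv_one_iff v).1 (le_antisymm h2 h5)
  rw [← hj] at hB g3 g2 hj1 b1 b2 hgood hsemi hj0 hj2 ⊢
  have l1 : 0 ≤ Real.log (max (fv v j) 1) := Real.log_nonneg (le_max_right _ _)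
  have l2 : 0 ≤ Real.log (max (fv v j⁻¹) 1) := Real.log_nonneg (le_max_right _ _)
  have l3 : 0 ≤ Real.log (max (fv v (j - 1728)⁻¹) 1) := Real.log_nonneg (le_max_right _ _)
  have hBle : (if B then Real.log (Nv v) else 0) ≤ Real.log (Nv v) := by
    split_ifs
    · exact le_rfl
    · exact hl.le
  by_cases e6 : fv v (6 : K) = 1
  · have e23 : fv v (2 : K) = 1 ∧ fv v (3 : K) = 1 := by
      have h2 : fv v (2 : K) ≤ 1 := (fv_Na v).ofNat 2
      have h3 : fv v (3 : K) ≤ 1 := (fv_Na v).ofNat 3
      have h5 : fv v (2 : K) * fv v (3 : K) = 1 := by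
        rw [← map_mul, show (2 : K) * 3 = 6 by norm_num, e6]
      have h2' : 0 < fv v (2 : K) := (fv v).pos (by norm_num)
      have h3' : 0 < fv v (3 : K) := (fv v).pos (by norm_num)
      constructor <;> nlinarith
    have e8 : Real.log (fv v (6 : K)) = 0 := by rw [e6, Real.log_one]
    rw [e8] at b1 ⊢
    by_cases hp : 1 < fv v j
    · by_cases hs : SemiAt v E
      · have hng : ¬ GoodAt v E := fun h => absurd (hgood h) (not_le.2 hp)
        have h7 : mw v E = Real.log (Nv v) := by
          unfold mw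
          exact if_pos ⟨hng, hs, (fv_one_iff v).1 e6⟩
        have h8 := hsemi hs
        rw [h7]
        linarith
      · have h7 : aw v E = Real.log (Nv v) := by
          unfold aw
          exact if_pos ⟨hs, (fv_one_iff v).1 e6⟩
        have h8 := b2 e23.1 e23.2 hp
        rw [h7]
        linarith
    · have hlm : Real.log (max (fv v j) 1) = 0 := by
        rw [max_eq_right (not_lt.1 hp), Real.log_one]
      rw [hlm] at b1
      obtain ⟨m, hmm⟩ : ∃ m, m = discExp v E := ⟨_, rfl⟩
      rw [← hmm] at b1 g3 g2 hdg ⊢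
      -- the valuations
      obtain ⟨a, hav⟩ := fv_zpow v hj0
      change fv v j = (Nv v) ^ a at hav
      obtain ⟨c, hcv⟩ := fv_zpow v hj2
      change fv v (j - 1728) = (Nv v) ^ c at hcv
      have hav' : fv v j = (Nv v) ^ (-(-a)) := by rw [neg_neg]; exact hav
      have hcv' : fv v (j - 1728) = (Nv v) ^ (-(-c)) := by rw [neg_neg]; exact hcv
      have k3 := g3 _ hav'
      have k2 := g2 _ hcv'
      have f1 : fv v j < 1 → 1 ≤ -a ∧ Real.log (max (fv v j⁻¹) 1) = ((-a : ℤ) : ℝ) *
          Real.log (Nv v) := by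
        intro h
        have h1 : a < 0 := by
          by_contra hcon
          rw [hav] at h
          exact absurd (one_le_zpow₀ hN.le (not_lt.1 hcon)) (not_le.2 h)
        exact ⟨by omega, log_max_inv v (-a) (by omega) hav'⟩
      have f2 : fv v (j - 1728) < 1 → 1 ≤ -c ∧ Real.log (max (fv v (j - 1728)⁻¹) 1) =
          ((-c : ℤ) : ℝ) * Real.log (Nv v) := by
        intro h
        have h1 : c < 0 := by
          by_contra hcon
          rw [hcv] at h
          exact absurd (one_le_zpow₀ hN.le (not_lt.1 hcon)) (not_le.2 h)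
        exact ⟨by omega, log_max_inv v (-c) (by omega) hcv'⟩
      obtain ⟨q3, hq3⟩ := k3
      obtain ⟨q2, hq2⟩ := k2
      by_cases hg : GoodAt v E
      · have hm0 := hdg hg
        rw [hm0]
        by_cases hb : B
        · rw [if_pos hb]
          rcases hB hb e6 with h | h | h
          · exact absurd h hp
          · obtain ⟨i1, i2⟩ := f1 h
            rw [i2]
            have i3 : (6 : ℝ) ≤ 2 * ((-a : ℤ) : ℝ) := by
              have : (6 : ℤ) ≤ 2 * (-a) := by omega
              exact_mod_cast this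
            push_cast
            push_cast at i3
            nlinarith
          · obtain ⟨i1, i2⟩ := f2 h
            rw [i2]
            have i3 : (6 : ℝ) ≤ 3 * ((-c : ℤ) : ℝ) := by
              have : (6 : ℤ) ≤ 3 * (-c) := by omega
              exact_mod_cast this
            push_cast
            push_cast at i3
            nlinarith
        · rw [if_neg hb]
          push_cast
          linarith
      · have hs : ¬ SemiAt v E := fun h => hg (hsg h hp)
        have h7 : aw v E = Real.log (Nv v) := by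
          unfold aw
          exact if_pos ⟨hs, (fv_one_iff v).1 e6⟩
        rw [h7]
        have hm10 : m ≤ 10 := by
          have h8 : (m : ℝ) * Real.log (Nv v) ≤ 10 * Real.log (Nv v) := by linarith
          exact_mod_cast le_of_mul_le_mul_right h8 hl
        have hm10' : (m : ℝ) ≤ 10 := by exact_mod_cast hm10
        by_cases hb : B
        · rw [if_pos hb]
          rcases hB hb e6 with h | h | h
          · exact absurd h hp
          · obtain ⟨i1, i2⟩ := f1 h
            rw [i2]
            have i3 : (m : ℝ) + 6 ≤ 2 * ((-a : ℤ) : ℝ) + 12 := by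
              have : (m : ℤ) + 6 ≤ 2 * (-a) + 12 := by omega
              exact_mod_cast this
            push_cast
            push_cast at i3
            nlinarith
          · obtain ⟨i1, i2⟩ := f2 h
            rw [i2]
            have i3 : (m : ℝ) + 6 ≤ 3 * ((-c : ℤ) : ℝ) + 12 := by
              have : (m : ℤ) + 6 ≤ 3 * (-c) + 12 := by omega
              exact_mod_cast this
            push_cast
            push_cast at i3
            nlinarith
        · rw [if_neg hb]
          nlinarith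
  · have h7 := s1 e6
    linarith

end Pool.Agent.Q103.SDJ
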