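import Mathlib
import Pool.Agent.Q103.SDJ.Loc
import Pool.Agent.Q103.SDJ.Core

/-!
# The sharp inequality between the Faltings height, the conductor and the radical of
# `(j : 1728 - j : -1728)`
-/

set_option autoImplicit false
set_option linter.unusedSectionVars false

namespace Pool.Agent.Q103.SDJ

open NumberField IsDedekindDomain Height Pool.Agent.H691R3 Pool.Agent.W223.AK Pool.Agent.Y733.LS
open Pool.Agent.Y733.FF
open Pool.Agent.TH876.FH (GoodAt IsPeriod arch)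
open Pool.Agent.Q103.SDV
open Pool.Agent.W223.CV

variable {K : Type} [Field K] [NumberField K]

theorem fin_le_ht (x : K) : ∑ᶠ v : Pr K, Real.log (max (fv v x) 1) ≤ logHeight₁ x := by
  rw [logHeight_eq]
  unfold Sa Sm
  have h : 0 ≤ ∑ w : InfinitePlace K, (w.mult : ℝ) * Real.log (max (w x) 1) :=
    Finset.sum_nonneg fun w _ => mul_nonneg (Nat.cast_nonneg _) (Real.log_nonneg (le_max_right _ _))
  have h2 : ∑ᶠ v : Pr K, Real.log (max (fv v x) 1) =
    ∑ᶠ v : HeightOneSpectrum (𝓞 K), Real.log (max (FinitePlace.mk v x) 1) := rfl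
  rw [h2]
  exact le_add_of_nonneg_left h

theorem two_three (v : Pr K) (h : fv v (6 : K) = 1) : fv v (2 : K) = 1 ∧ fv v (3 : K) = 1 := by
  have h2 : fv v (2 : K) ≤ 1 := (fv_Na v).ofNat 2
  have h3 : fv v (3 : K) ≤ 1 := (fv_Na v).ofNat 3
  have h5 : fv v (2 : K) * fv v (3 : K) = 1 := by
    rw [← map_mul, show (2 : K) * 3 = 6 by norm_num, h]
  have h2' : 0 < fv v (2 : K) := (fv v).pos (by norm_num)
  have h3' : 0 < fv v (3 : K) := (fv v).pos (by norm_num)
  constructor <;> nlinarith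

theorem three_cases (P : Fin 3 → 𝓞 K) (j : K) (hj : IsJ P j) (v : Pr K)
    (h6 : fv v (6 : K) = 1) (hb : Bad P v) : 1 < fv v j ∨ fv v j < 1 ∨ fv v (j - 1728) < 1 := by
  by_contra hcon
  push Not at hcon
  obtain ⟨h1, h2, h3⟩ := hcon
  have hj1 : fv v j = 1 := le_antisymm h1 h2
  obtain ⟨e2, e3⟩ := two_three v h6
  have e1728 : fv v (1728 : K) = 1 := by
    rw [show (1728 : K) = 2 ^ 6 * 3 ^ 3 by norm_num, map_mul, map_pow, map_pow, e2, e3]
    norm_num
  have h4 : fv v (j - 1728) ≤ 1 := by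
    have := (fv_Na v).sub j (1728 : K)
    rwa [hj1, e1728, max_self] at this
  have hj2 : fv v (j - 1728) = 1 := le_antisymm h4 h3
  obtain ⟨s, hs, p0, p1, p2⟩ := hj
  have k0 : fv v (P 0 : K) = fv v s := by rw [p0, map_mul, hj1, mul_one]
  have k1 : fv v (P 1 : K) = fv v s := by
    rw [p1, map_mul, ← neg_sub, map_neg_eq_map, hj2, mul_one]
  have k2 : fv v (P 2 : K) = fv v s := by
    rw [p2, map_neg_eq_map, map_mul, e1728, mul_one]
  obtain ⟨k, k', hkk⟩ := hb
  have hall : ∀ k, fv v (P k : K) = fv v s := by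
    intro k
    fin_cases k
    · exact k0
    · exact k1
    · exact k2
  apply hkk
  have g1 : fv v (P k : K) = fv v (P k' : K) := by rw [hall k, hall k']
  exact le_antisymm ((mk_le v _ _).1 (le_of_eq g1)) ((mk_le v _ _).1 (le_of_eq g1.symm))

open Classical in
theorem disc_sharp (E : WeierstrassCurve K) (hE : E.Δ ≠ 0) (P : Fin 3 → 𝓞 K)
    (hP : ∀ k, P k ≠ 0) (h4 : E.c₄ ≠ 0) (h6 : E.c₆ ≠ 0) (hj : IsJ P (E.c₄ ^ 3 / E.Δ)) :
    discSum E + 6 * cc ∅ (Bad P) ≤ ∑ᶠ v : Pr K, Real.log (max (fv v (E.c₄ ^ 3 / E.Δ)) 1) +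
      2 * logHeight₁ (E.c₄ ^ 3 / E.Δ) + 3 * logHeight₁ (E.c₄ ^ 3 / E.Δ - 1728) +
      6 * (Real.log (multN E) + Real.log (addN E)) +
      28 * (Module.finrank ℚ K * Real.log 6) := by
  obtain ⟨j, hjj⟩ : ∃ j, j = E.c₄ ^ 3 / E.Δ := ⟨_, rfl⟩
  have hbad := bad_finite P hP
  have s1 := supp_disc E hE
  have sb : (Function.support fun v : Pr K => if Bad P v then Real.log (Nv v) else 0).Finite := by
    refine hbad.subset ?_
    intro v hv
    rw [Function.mem_support] at hv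
    by_contra hcon
    exact hv (if_neg hcon)
  have t1 : (Function.support fun v : Pr K => Real.log (max (fv v j) 1)).Finite := Fs_ht j
  have t2 : (Function.support fun v : Pr K => Real.log (max (fv v j⁻¹) 1)).Finite := Fs_ht j⁻¹
  have t3 : (Function.support fun v : Pr K => Real.log (max (fv v (j - 1728)⁻¹) 1)).Finite :=
    Fs_ht (j - 1728)⁻¹
  have s4 := supp_mw E hE
  have s5 := supp_aw E hE
  have s6 : (Function.support fun v : Pr K => Real.log (fv v (6 : K))).Finite :=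
    Fs_log (K := K) (z := (6 : K)) (by norm_num)
  have sb' := supp_mul 6 sb
  have t2' := supp_mul 2 t2
  have t3' := supp_mul 3 t3
  have s4' := supp_mul 6 s4
  have s5' := supp_mul 12 s5
  have s6' := supp_mul (-28) s6
  have u1 := supp_add t1 t2'
  have u2 := supp_add u1 t3'
  have u3 := supp_add u2 s4'
  have u4 := supp_add u3 s5'
  have key : ∑ᶠ v : Pr K, ((discExp v E : ℝ) * Real.log (Nv v) +
      6 * (if Bad P v then Real.log (Nv v) else 0)) ≤
      ∑ᶠ v : Pr K, (Real.log (max (fv v j) 1) + 2 * Real.log (max (fv v j⁻¹) 1) +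
        3 * Real.log (max (fv v (j - 1728)⁻¹) 1) + 6 * mw v E + 12 * aw v E +
        -28 * Real.log (fv v (6 : K))) := by
    refine finsum_le_finsum' (supp_add s1 sb') (supp_add u4 s6') fun v => ?_
    have h := loc_sharp v E hE h4 h6 (Bad P v) (fun hb h6v => three_cases P _ hj v h6v hb)
    rw [← hjj] at h
    refine h.trans (le_of_eq ?_)
    ring
  rw [sum_add s1 sb', sum_mul _ sb, sum_add u4 s6', sum_add u3 s5', sum_add u2 s4',
    sum_add u1 t3', sum_add t1 t2', sum_mul _ t2, sum_mul _ t3, sum_mul _ s4,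
    sum_mul _ s5, sum_mul _ s6] at key
  have h6 := fin_nat (K := K) (n := 6) (by norm_num)
  push_cast at h6
  rw [h6] at key
  have hT2 := fin_le_ht j⁻¹
  have hT3 := fin_le_ht (j - 1728)⁻¹
  rw [logHeight₁_inv] at hT2 hT3
  rw [log_multN E hE, log_addN E hE, ← hjj]
  have e1 : discSum E = ∑ᶠ v : Pr K, (discExp v E : ℝ) * Real.log (Nv v) := rfl
  have e2 : cc ∅ (Bad P) = ∑ᶠ v : Pr K, if Bad P v then Real.log (Nv v) else 0 := by
    have h1 := scount_eq (Bad P)
    unfold scount at h1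
    rw [← h1]
    refine finsum_congr fun v => ?_
    unfold Nv
    congr
  rw [e1, e2]
  linarith

theorem log_1728 : logHeight₁ (1728 : K) = Module.finrank ℚ K * Real.log 1728 := by
  have h := log_rat (K := K) 1728
  push_cast at h
  rw [h]
  congr 1
  have h3 : mulHeight₁ (1728 : ℚ) = 1728 := by
    have := Rat.mulHeight₁_eq_max (1728 : ℚ)
    rw [this]
    norm_num
  show Real.log (mulHeight₁ (1728 : ℚ)) = _
  rw [h3]

/-- **The sharp inequality.** -/
theorem frey_sharp : ∃ C : ℝ, 0 < C ∧ ∀ (K : Type) [Field K] [NumberField K]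
    (E : WeierstrassCurve K) (τ : InfinitePlace K → UpperHalfPlane) (P : Fin 3 → 𝓞 K),
    E.Δ ≠ 0 → IsPeriod (E.c₄ ^ 3 / E.Δ) τ → (∀ k, P k ≠ 0) → E.c₄ ≠ 0 → E.c₆ ≠ 0 →
    IsJ P (E.c₄ ^ 3 / E.Δ) →
    discSum E + ∑ w : InfinitePlace K, (w.mult : ℝ) * arch (τ w) + 6 * cc ∅ (Bad P) ≤
      6 * logHeight₁ (E.c₄ ^ 3 / E.Δ) + 6 * (Real.log (multN E) + Real.log (addN E)) +
        C * Module.finrank ℚ K := by
  obtain ⟨c, hc0, hc⟩ := arch_le
  have l6 : 0 < Real.log 6 := Real.log_pos (by norm_num)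
  have l1 : 0 ≤ Real.log 1728 := Real.log_nonneg (by norm_num)
  have l2 : 0 ≤ Real.log 2 := Real.log_nonneg (by norm_num)
  refine ⟨c + 28 * Real.log 6 + 3 * Real.log 1728 + 3 * Real.log 2, by positivity, ?_⟩
  intro K _ _ E τ P hE hτ hP h4 h6 hj
  have h1 := disc_sharp E hE P hP h4 h6 hj
  have h2 := hc K _ τ hτ
  have h3 : logHeight₁ (E.c₄ ^ 3 / E.Δ) =
      ∑ w : InfinitePlace K, (w.mult : ℝ) * Real.log (max (w (E.c₄ ^ 3 / E.Δ)) 1) +
      ∑ᶠ v : HeightOneSpectrum (𝓞 K), Real.log (max (FinitePlace.mk v (E.c₄ ^ 3 / E.Δ)) 1) := by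
    rw [logHeight_eq]
    rfl
  have h5 : ∑ᶠ v : Pr K, Real.log (max (fv v (E.c₄ ^ 3 / E.Δ)) 1) =
    ∑ᶠ v : HeightOneSpectrum (𝓞 K), Real.log (max (FinitePlace.mk v (E.c₄ ^ 3 / E.Δ)) 1) := rfl
  rw [h5] at h1
  have h7 := logHeight₁_sub_le (E.c₄ ^ 3 / E.Δ) 1728
  have htw : (totalWeight K : ℝ) = Module.finrank ℚ K := by
    exact_mod_cast NumberField.totalWeight_eq_finrank K
  rw [htw, log_1728] at h7
  nlinarith

end Pool.Agent.Q103.SDJ
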