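import Mathlib
import Pool.Agent.Q103.SDJ.Glob

/-!
# The stable Faltings height and the primes of bad reduction for the invariants composed of numbers
# with small digits
-/

set_option autoImplicit false
set_option linter.unusedSectionVars false

namespace Pool.Agent.Q103.SDJ

open NumberField IsDedekindDomain Height Pool.Agent.H691R3 Pool.Agent.W223.AK Pool.Agent.Y733.LS
open Pool.Agent.Y733.FF
open Pool.Agent.TH876.FH (GoodAt IsPeriod arch)
open Pool.Agent.Q103.SDV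
open Pool.Agent.W223.CV

variable {K : Type} [Field K] [NumberField K]

/-- additive places are places of bad reduction -/
theorem add_bad (v : Pr K) (E : WeierstrassCurve K) (hE : E.Δ ≠ 0) (h4 : E.c₄ ≠ 0) (h6 : E.c₆ ≠ 0)
    (h : AddP (E.c₄ ^ 3 / E.Δ) v) : ¬ GoodAt v E := by
  intro hg
  obtain ⟨-, -, -, h⟩ := h
  obtain ⟨g3, g2⟩ := congr v E hE
  have hd := disc_good v E hg
  have hj0 : E.c₄ ^ 3 / E.Δ ≠ 0 := div_ne_zero (pow_ne_zero _ h4) hE
  have hj2 : E.c₄ ^ 3 / E.Δ - 1728 ≠ 0 := by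
    rw [j_1728 E hE]
    exact div_ne_zero (pow_ne_zero _ h6) hE
  rcases h with h | h
  · obtain ⟨a, ha⟩ := fv_zpow v hj0
    obtain ⟨k, hk⟩ := g3 (-a) (by rw [neg_neg]; exact ha)
    rw [hd] at hk
    push_cast at hk
    apply h (-k)
    have ha' : FinitePlace.mk v (E.c₄ ^ 3 / E.Δ) = (Ideal.absNorm v.asIdeal : ℝ) ^ a := ha
    rw [ha']
    congr 1
    omega
  · obtain ⟨a, ha⟩ := fv_zpow v hj2
    obtain ⟨k, hk⟩ := g2 (-a) (by rw [neg_neg]; exact ha)
    rw [hd] at hk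
    push_cast at hk
    apply h (-k)
    have ha' : FinitePlace.mk v (E.c₄ ^ 3 / E.Δ - 1728) = (Ideal.absNorm v.asIdeal : ℝ) ^ a := ha
    rw [ha']
    congr 1
    omega

/-- the logarithm of the product of the norms of the primes of bad reduction -/
theorem count_le_bad (E : WeierstrassCurve K) (hE : E.Δ ≠ 0) (h4 : E.c₄ ≠ 0) (h6 : E.c₆ ≠ 0) :
    scount (fun v => 1 < FinitePlace.mk v (E.c₄ ^ 3 / E.Δ)) + scount (AddP (E.c₄ ^ 3 / E.Δ)) ≤
      Real.log (∏ᶠ v ∈ {v : HeightOneSpectrum (𝓞 K) | ¬ GoodAt v E},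
        (Ideal.absNorm v.asIdeal : ℝ)) := by
  classical
  have hfin := bad_fin E hE
  have h := log_prodN hfin 1
  simp only [pow_one, Nat.cast_one, one_mul] at h
  have hj0 : E.c₄ ^ 3 / E.Δ ≠ 0 := div_ne_zero (pow_ne_zero _ h4) hE
  have hj1 : E.c₄ ^ 3 / E.Δ ≠ 1728 := by
    intro h
    have h1 : E.c₄ ^ 3 / E.Δ - 1728 = 0 := by rw [h]; ring
    rw [j_1728 E hE] at h1
    exact div_ne_zero (pow_ne_zero _ h6) hE h1
  have hp := pole_finite (E.c₄ ^ 3 / E.Δ)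
  have ha := add_finite hj0 hj1
  have hsupp : ∀ (Q : Pr K → Prop), {v | Q v}.Finite →
      (Function.support fun v : Pr K => if Q v then Real.log (Nv v) else 0).Finite := by
    intro Q hQ
    refine hQ.subset ?_
    intro v hv
    rw [Function.mem_support] at hv
    by_contra hcon
    exact hv (if_neg hcon)
  have e1 : scount (fun v => 1 < FinitePlace.mk v (E.c₄ ^ 3 / E.Δ)) =
      ∑ᶠ v : Pr K, if 1 < FinitePlace.mk v (E.c₄ ^ 3 / E.Δ) then Real.log (Nv v) else 0 := by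
    unfold scount Nv
    exact finsum_congr fun v => by congr
  have e2 : scount (AddP (E.c₄ ^ 3 / E.Δ)) =
      ∑ᶠ v : Pr K, if AddP (E.c₄ ^ 3 / E.Δ) v then Real.log (Nv v) else 0 := by
    unfold scount Nv
    exact finsum_congr fun v => by congr
  have e3 : Real.log (∏ᶠ v ∈ {v : HeightOneSpectrum (𝓞 K) | ¬ GoodAt v E},
      (Ideal.absNorm v.asIdeal : ℝ)) =
      ∑ᶠ v : Pr K, if v ∈ {v : HeightOneSpectrum (𝓞 K) | ¬ GoodAt v E} then
        Real.log (Nv v) else 0 := by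
    refine Eq.trans h (finsum_congr fun v => ?_)
    congr
  rw [e1, e2, e3, ← finsum_add_distrib (hsupp _ hp) (hsupp _ ha)]
  have hs3 : (Function.support fun v : Pr K =>
      if v ∈ {v : HeightOneSpectrum (𝓞 K) | ¬ GoodAt v E} then Real.log (Nv v) else 0).Finite := by
    refine hfin.subset ?_
    intro v hv
    rw [Function.mem_support] at hv
    by_contra hcon
    exact hv (if_neg hcon)
  refine finsum_le_finsum' (supp_add (hsupp _ hp) (hsupp _ ha)) hs3 fun v => ?_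
  have hl := log_Nv_pos v
  by_cases c1 : 1 < FinitePlace.mk v (E.c₄ ^ 3 / E.Δ)
  · have c2 : ¬ AddP (E.c₄ ^ 3 / E.Δ) v := fun h => absurd h.2.2.1 (not_le.2 c1)
    have c3 : ¬ GoodAt v E := fun h => absurd (good_int v E hE h) (not_le.2 c1)
    have c4 : v ∈ {v : HeightOneSpectrum (𝓞 K) | ¬ GoodAt v E} := c3
    rw [if_pos c1, if_neg c2, if_pos c4, add_zero]
  · rw [if_neg c1, zero_add]
    by_cases c2 : AddP (E.c₄ ^ 3 / E.Δ) v
    · have c4 : v ∈ {v : HeightOneSpectrum (𝓞 K) | ¬ GoodAt v E} := add_bad v E hE h4 h6 c2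
      rw [if_pos c2, if_pos c4]
    · rw [if_neg c2]
      split_ifs
      · exact hl.le
      · exact le_rfl

/-- **The stable Faltings height.** -/
theorem stable_small (D : ℕ) (ε : ℝ) (hε : 0 < ε) : ∃ δ : ℝ, 0 < δ ∧ ∃ T₀ : ℝ, 1 ≤ T₀ ∧
    ∀ T : ℝ, T₀ ≤ T → ∀ (K : Type) [Field K] [NumberField K] (t : 𝓞 K) (P : Fin 3 → 𝓞 K),
      Compo D δ T t P → ∀ (E : WeierstrassCurve K) (τ : InfinitePlace K → UpperHalfPlane),
      E.Δ ≠ 0 → IsJ P (E.c₄ ^ 3 / E.Δ) → IsPeriod (E.c₄ ^ 3 / E.Δ) τ →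
      Module.finrank ℚ K * Real.log T ≤ lN t ∧ 0 ≤ lN t ∧ ∑ᶠ v : HeightOneSpectrum (𝓞 K), Real.log (max (FinitePlace.mk v (E.c₄ ^ 3 / E.Δ)) 1) +
        ∑ w : InfinitePlace K, (w.mult : ℝ) * arch (τ w) + 6 * (1 - ε) * lN t ≤
        6 * Real.log (∏ᶠ v ∈ {v : HeightOneSpectrum (𝓞 K) | ¬ GoodAt v E},
          (Ideal.absNorm v.asIdeal : ℝ)) := by
  obtain ⟨c, hc0, hc⟩ := arch_le
  obtain ⟨δ, hδ, T₁, hT₁, hmain⟩ := jcount D (ε / 2) 0 (half_pos hε)
  obtain ⟨B, hB⟩ : ∃ B : ℝ, B = c / (3 * ε) := ⟨_, rfl⟩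
  have hB0 : 0 ≤ B := by rw [hB]; positivity
  refine ⟨δ, hδ, max T₁ (Real.exp B), hT₁.trans (le_max_left _ _), ?_⟩
  intro T hT K _ _ t P hP E τ hE hj hτ
  have hTT : T₁ ≤ T := (le_max_left _ _).trans hT
  have hT0 : 1 ≤ T := hT₁.trans hTT
  have hlogT : B ≤ Real.log T := by
    have h1 := Real.log_le_log (Real.exp_pos B) ((le_max_right T₁ _).trans hT)
    rwa [Real.log_exp] at h1
  obtain ⟨hj0, hj1, hNt, -, hcount⟩ := hmain T hTT K t P (E.c₄ ^ 3 / E.Δ) hP hj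
  have hd : (0 : ℝ) < Module.finrank ℚ K := by exact_mod_cast Module.finrank_pos
  have hT2 : 0 ≤ Real.log T := Real.log_nonneg hT0
  have hN0 : 0 ≤ lN t := le_trans (by positivity) hNt
  refine ⟨hNt, hN0, ?_⟩
  have h4 : E.c₄ ≠ 0 := by
    intro h
    apply hj0
    rw [h]
    simp
  have h6 : E.c₆ ≠ 0 := by
    intro h
    apply hj1
    have h1 := j_1728 E hE
    rw [h] at h1
    have h2 : E.c₄ ^ 3 / E.Δ - 1728 = 0 := by rw [h1]; simp
    exact sub_eq_zero.1 h2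
  have k1 := count_le_bad E hE h4 h6
  have k2 := hc K _ τ hτ
  have h3 : logHeight₁ (E.c₄ ^ 3 / E.Δ) =
      ∑ w : InfinitePlace K, (w.mult : ℝ) * Real.log (max (w (E.c₄ ^ 3 / E.Δ)) 1) +
      ∑ᶠ v : HeightOneSpectrum (𝓞 K), Real.log (max (FinitePlace.mk v (E.c₄ ^ 3 / E.Δ)) 1) := by
    rw [logHeight_eq]
    rfl
  have c1 : c * Module.finrank ℚ K ≤ 3 * ε * lN t := by
    have h1 : c ≤ 3 * ε * Real.log T := by
      have h2 : c / (3 * ε) ≤ Real.log T := by rw [← hB]; exact hlogT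
      rw [div_le_iff₀ (by positivity)] at h2
      linarith
    calc c * Module.finrank ℚ K ≤ (3 * ε * Real.log T) * Module.finrank ℚ K :=
          mul_le_mul_of_nonneg_right h1 hd.le
      _ = 3 * ε * (Module.finrank ℚ K * Real.log T) := by ring
      _ ≤ 3 * ε * lN t := mul_le_mul_of_nonneg_left hNt (by positivity)
  linarith

end Pool.Agent.Q103.SDJ
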