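import Mathlib
import Pool.Agent.Q103.SDJ.Glob

/-!
# The sharp Frey inequality for the invariants composed of numbers with small digits
-/

set_option autoImplicit false
set_option linter.unusedSectionVars false

namespace Pool.Agent.Q103.SDJ

open NumberField IsDedekindDomain Height Pool.Agent.H691R3 Pool.Agent.W223.AK Pool.Agent.Y733.LS
open Pool.Agent.Y733.FF
open Pool.Agent.TH876.FH (GoodAt IsPeriod arch)
open Pool.Agent.Q103.SDV
open Pool.Agent.W223.CV

/-- **The sharp inequality for small digits.** -/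
theorem frey_small (D : ℕ) (ε : ℝ) (hε : 0 < ε) : ∃ δ : ℝ, 0 < δ ∧ ∃ T₀ : ℝ, 1 ≤ T₀ ∧
    ∀ T : ℝ, T₀ ≤ T → ∀ (K : Type) [Field K] [NumberField K] (t : 𝓞 K) (P : Fin 3 → 𝓞 K),
      Compo D δ T t P → ∀ (E : WeierstrassCurve K) (τ : InfinitePlace K → UpperHalfPlane),
      E.Δ ≠ 0 → IsJ P (E.c₄ ^ 3 / E.Δ) → IsPeriod (E.c₄ ^ 3 / E.Δ) τ →
      0 ≤ lN t ∧ discSum E + ∑ w : InfinitePlace K, (w.mult : ℝ) * arch (τ w) +
        6 * (1 - ε) * lN t ≤ 6 * (Real.log (multN E) + Real.log (addN E)) := by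
  obtain ⟨η, hη⟩ : ∃ η, η = min ε 1 / 2 := ⟨_, rfl⟩
  have hη0 : 0 < η := by rw [hη]; positivity
  have hηε : η ≤ ε / 2 := by
    rw [hη]
    have := min_le_left ε 1
    linarith
  have hη1 : η ≤ 1 / 2 := by
    rw [hη]
    have := min_le_right ε 1
    linarith
  obtain ⟨δ, hδ, T₁, hT₁, hmain⟩ := abc D η hη0 (by linarith)
  obtain ⟨C, hC, hfrey⟩ := frey_sharp
  have l1 : 0 ≤ Real.log 1728 := Real.log_nonneg (by norm_num)
  obtain ⟨B, hB⟩ : ∃ B : ℝ, B = (C + 6 * Real.log 1728) / (3 * ε) := ⟨_, rfl⟩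
  have hB0 : 0 ≤ B := by rw [hB]; positivity
  refine ⟨δ, hδ, max T₁ (Real.exp B), hT₁.trans (le_max_left _ _), ?_⟩
  intro T hT K _ _ t P hP E τ hE hj hτ
  have hTT : T₁ ≤ T := (le_max_left _ _).trans hT
  have hT0 : 1 ≤ T := hT₁.trans hTT
  have hlogT : B ≤ Real.log T := by
    have h1 := Real.log_le_log (Real.exp_pos B) ((le_max_right T₁ _).trans hT)
    rwa [Real.log_exp] at h1
  obtain ⟨s, hs0, e0, e1, e2⟩ := hj
  have hsumK : (P 0 : K) + P 1 + P 2 = 0 := by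
    rw [e0, e1, e2]
    ring
  have hsum : P 0 + P 1 + P 2 = 0 := by
    apply RingOfIntegers.coe_injective
    push_cast
    exact hsumK
  have hd : (0 : ℝ) < Module.finrank ℚ K := by exact_mod_cast Module.finrank_pos
  have h1728 : (1728 : K) ≠ 0 := by norm_num
  have hP2 : P 2 ≠ 0 := by
    intro h
    have h1 : (P 2 : K) = 0 := by rw [h]; rfl
    rw [e2] at h1
    exact mul_ne_zero hs0 h1728 (neg_eq_zero.mp h1)
  obtain ⟨hP0, hNt, hab⟩ := hmain T hTT K t P hP hsum ⟨2, hP2⟩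
  have hPK : ∀ k, (P k : K) ≠ 0 := fun k => RingOfIntegers.coe_ne_zero_iff.mpr (hP0 k)
  have h4 : E.c₄ ≠ 0 := by
    intro h
    apply hPK 0
    rw [e0, h]
    simp
  have h6 : E.c₆ ≠ 0 := by
    intro h
    apply hPK 1
    have h1 := j_1728 E hE
    rw [h] at h1
    rw [e1]
    have h2 : (1728 : K) - E.c₄ ^ 3 / E.Δ = 0 := by
      rw [← neg_sub, h1]
      simp
    rw [h2, mul_zero]
  have k1 := hfrey K E τ P hE hτ hP0 h4 h6 ⟨s, hs0, e0, e1, e2⟩
  obtain ⟨j, hjj⟩ : ∃ j, j = E.c₄ ^ 3 / E.Δ := ⟨_, rfl⟩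
  rw [← hjj] at k1 e0
  have hy : (j / 1728) * (P 2 : K) = -(P 0 : K) := by
    rw [e0, e2]
    field_simp
  have k3 := log_mob_le P hP0 _ hy
  have k5 : logHeight₁ j ≤ logHeight₁ (j / 1728) + Module.finrank ℚ K * Real.log 1728 := by
    have h := logHeight₁_mul_le (j / 1728) (1728 : K)
    rw [div_mul_cancel₀ _ h1728, log_1728] at h
    exact h
  have hT2 : 0 ≤ Real.log T := Real.log_nonneg hT0
  have hN0 : 0 ≤ lN t := le_trans (by positivity) hNt
  refine ⟨hN0, ?_⟩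
  have c1 : (C + 6 * Real.log 1728) * Module.finrank ℚ K ≤ 3 * ε * lN t := by
    have h1 : C + 6 * Real.log 1728 ≤ 3 * ε * Real.log T := by
      have h2 : (C + 6 * Real.log 1728) / (3 * ε) ≤ Real.log T := by rw [← hB]; exact hlogT
      rw [div_le_iff₀ (by positivity)] at h2
      linarith
    calc (C + 6 * Real.log 1728) * Module.finrank ℚ K ≤
          (3 * ε * Real.log T) * Module.finrank ℚ K := mul_le_mul_of_nonneg_right h1 hd.le
      _ = 3 * ε * (Module.finrank ℚ K * Real.log T) := by ring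
      _ ≤ 3 * ε * lN t := mul_le_mul_of_nonneg_left hNt (by positivity)
  have c2 : η * lN t ≤ ε / 2 * lN t := mul_le_mul_of_nonneg_right hηε hN0
  nlinarith

end Pool.Agent.Q103.SDJ
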